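import Pool.Agent.H33.HH.TC
import Pool.Agent.H3.CV.GC
import Pool.Agent.H86.CV.DV

/-!
# Half of all (MP_347b49_nt), row DAP: the diagonal term
-/

set_option autoImplicit false

open NumberField Complex Filter Topology MeasureTheory
open scoped ContDiff nonZeroDivisors

namespace Pool.Agent.H87.HH

open Pool.Agent.H28.RC Pool.Agent.H37.CV Pool.Agent.H33.HH

noncomputable section

open scoped Classical in
/-- the double sum of the row -/
private def DD {K : Type} [Field K] [NumberField K] (P Z : ℝ) (G : ℝ → ℝ)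
    (S T : Finset (PrI K)) : ℝ :=
  sumC P fun m => sumC P fun n => if idS S * m = idS T * n then (nS np T * nm n)⁻¹ *
    (G (nm m / Z) * G (nm n / Z)) else 0

private theorem nm_pos' {K : Type} [Field K] [NumberField K] {I : Ideal (𝓞 K)} (h : I ≠ ⊥) :
    1 ≤ nm I := by
  have h1 : Ideal.absNorm I ≠ 0 := by
    rw [Ne, Ideal.absNorm_eq_zero_iff]
    exact h
  unfold nm
  exact_mod_cast Nat.one_le_iff_ne_zero.2 h1

private theorem one_le_nS {K : Type} [Field K] [NumberField K] (S : Finset (PrI K)) :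
    1 ≤ nS np S := by
  rw [← Pool.Agent.H3.CV.nm_idS]
  exact nm_pos' (Pool.Agent.H3.CV.idS_ne S)

private theorem G_bdd' {G : ℝ → ℝ} (hG : IsG G) : ∃ M : ℝ, 0 ≤ M ∧ ∀ u, |G u| ≤ M := by
  obtain ⟨M, hM⟩ := (isCompact_Icc (a := (1 : ℝ)) (b := 3)).exists_bound_of_continuousOn
    hG.smooth.continuous.continuousOn
  refine ⟨max 1 M, le_trans zero_le_one (le_max_left _ _), fun u => ?_⟩
  rw [← Real.norm_eq_abs]
  rcases le_total u 1 with h | h
  · rw [hG.low u h, norm_one]
    exact le_max_left _ _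
  · rcases le_total u 3 with h3 | h3
    · exact (hM u ⟨h, h3⟩).trans (le_max_right _ _)
    · rw [hG.high u h3, norm_zero]
      exact le_trans zero_le_one (le_max_left _ _)

open scoped Classical in
private theorem DD_bound {K : Type} [Field K] [NumberField K] :
    ∃ C : ℝ, 0 ≤ C ∧ ∀ (P Z M : ℝ) (G : ℝ → ℝ) (S T : Finset (PrI K)), 1 ≤ Z → 0 ≤ M →
      (∀ u, |G u| ≤ M) → (∀ u, 3 ≤ u → G u = 0) →
      |DD P Z G S T| ≤ C * M ^ 2 * (1 + Real.log (3 * Z)) *
        (nS np (S ∩ T) / (nS np S * nS np T)) := by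
  obtain ⟨C, hC⟩ := (Pool.Agent.H86.CV.pf_DV K).2
  refine ⟨|C|, abs_nonneg _, ?_⟩
  intro P Z M G S T hZ hM0 hM hG3
  have hZ0 : 0 < Z := by linarith
  have hA := one_le_nS S
  have hB := one_le_nS T
  have hE := one_le_nS (S ∩ T)
  have hD := one_le_nS (S \ T)
  -- the finite set of the ideals of norm at most 3 Z
  have hfin : {m : NI K | nm m.1 ≤ 3 * Z}.Finite := by
    have h1 := Ideal.finite_setOfPred_absNorm_le (S := 𝓞 K) ⌊3 * Z⌋₊
    refine (h1.preimage (f := fun m : NI K => m.1) Subtype.val_injective.injOn).subset ?_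
    intro m hm
    exact Nat.le_floor hm
  set F : Finset (NI K) := hfin.toFinset with hF
  have hout : ∀ m : NI K, m ∉ F → G (nm m.1 / Z) = 0 := by
    intro m hm
    have h1 : ¬ nm m.1 ≤ 3 * Z := fun h => hm (hfin.mem_toFinset.2 h)
    exact hG3 _ ((le_div_iff₀ hZ0).2 (not_le.1 h1).le)
  set t : NI K → NI K → ℝ := fun m n => if Cp P m.1 then (if Cp P n.1 then
    (if idS S * m.1 = idS T * n.1 then (nS np T * nm n.1)⁻¹ *
      (G (nm m.1 / Z) * G (nm n.1 / Z)) else 0) else 0) else 0 with ht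
  have hDD : DD P Z G S T = ∑ m ∈ F, ∑ n ∈ F, t m n := by
    unfold DD sumC
    have hinner : ∀ m : NI K, (if Cp P m.1 then (∑' I : NI K, if Cp P I.1 then
        (if idS S * m.1 = idS T * I.1 then (nS np T * nm I.1)⁻¹ *
          (G (nm m.1 / Z) * G (nm I.1 / Z)) else 0) else 0) else 0) = ∑ n ∈ F, t m n := by
      intro m
      by_cases h : Cp P m.1
      · rw [if_pos h, tsum_eq_sum (s := F)]
        · refine Finset.sum_congr rfl fun n _ => ?_
          simp only [ht, if_pos h]
        · intro n hn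
          rw [hout n hn]
          simp
      · rw [if_neg h]
        simp only [ht, if_neg h, Finset.sum_const_zero]
    rw [tsum_congr hinner, tsum_eq_sum]
    intro m hm
    refine Finset.sum_eq_zero fun n _ => ?_
    simp only [ht, hout m hm]
    simp
  -- the bound of one term
  have hterm : ∀ m n : NI K, |t m n| ≤ if idS S * m.1 = idS T * n.1 then
      M ^ 2 * (nS np T * nm n.1)⁻¹ else 0 := by
    intro m n
    have hn := nm_pos' n.2
    have hpos : 0 < nS np T * nm n.1 := by positivity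
    have h0 : 0 ≤ if idS S * m.1 = idS T * n.1 then M ^ 2 * (nS np T * nm n.1)⁻¹ else 0 := by
      split_ifs
      · positivity
      · exact le_refl _
    simp only [ht]
    by_cases h1 : Cp P m.1
    · by_cases h2 : Cp P n.1
      · rw [if_pos h1, if_pos h2]
        by_cases h3 : idS S * m.1 = idS T * n.1
        · rw [if_pos h3, if_pos h3, abs_mul, abs_mul, abs_of_pos (inv_pos.2 hpos)]
          have h4 : |G (nm m.1 / Z)| * |G (nm n.1 / Z)| ≤ M * M :=
            mul_le_mul (hM _) (hM _) (abs_nonneg _) hM0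
          calc (nS np T * nm n.1)⁻¹ * (|G (nm m.1 / Z)| * |G (nm n.1 / Z)|)
              ≤ (nS np T * nm n.1)⁻¹ * (M * M) :=
                mul_le_mul_of_nonneg_left h4 (inv_pos.2 hpos).le
            _ = M ^ 2 * (nS np T * nm n.1)⁻¹ := by ring
        · rw [if_neg h3, if_neg h3, abs_zero]
      · rw [if_pos h1, if_neg h2, abs_zero]
        exact h0
    · rw [if_neg h1, abs_zero]
      exact h0
  -- the ideals `n` which occur
  set F' : Finset (NI K) := F.filter fun n => idS (S \ T) ∣ n.1 with hF'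
  have hdiv : ∀ m n : NI K, idS S * m.1 = idS T * n.1 → idS (S \ T) ∣ n.1 := by
    intro m n h
    refine Pool.Agent.H3.CV.idS_dvd fun p hp => ?_
    rw [Finset.mem_sdiff] at hp
    have hpr : Prime p.1 := (Ideal.prime_iff_isPrime p.2.2).2 p.2.1
    have h1 : p.1 ∣ idS S := by
      unfold idS
      exact Finset.dvd_prod_of_mem _ hp.1
    have h2 : p.1 ∣ idS T * n.1 := by
      rw [← h]
      exact Dvd.dvd.mul_right h1 _
    rcases hpr.dvd_or_dvd h2 with h3 | h3
    · exact absurd (Pool.Agent.H3.CV.idS_le (Ideal.dvd_iff_le.1 h3)) hp.2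
    · exact Ideal.dvd_iff_le.1 h3
  have hcol : ∀ n ∈ F, ∑ m ∈ F, (if idS S * m.1 = idS T * n.1 then
      M ^ 2 * (nS np T * nm n.1)⁻¹ else 0) ≤
      if idS (S \ T) ∣ n.1 then M ^ 2 * (nS np T * nm n.1)⁻¹ else 0 := by
    intro n _
    have hn := nm_pos' n.2
    by_cases hex : ∃ m : NI K, idS S * m.1 = idS T * n.1
    · obtain ⟨m, hm⟩ := hex
      rw [if_pos (hdiv m n hm)]
      have h1 : ∀ x : NI K, (if idS S * x.1 = idS T * n.1 then
          M ^ 2 * (nS np T * nm n.1)⁻¹ else 0) =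
          if m = x then M ^ 2 * (nS np T * nm n.1)⁻¹ else 0 := by
        intro x
        by_cases hx : m = x
        · rw [if_pos hx, if_pos (hx ▸ hm)]
        · rw [if_neg hx, if_neg]
          intro h
          apply hx
          apply Subtype.ext
          have h2 : idS S * m.1 = idS S * x.1 := by rw [hm, h]
          exact mul_left_cancel₀ (Pool.Agent.H3.CV.idS_ne S) h2
      rw [Finset.sum_congr rfl fun x _ => h1 x, Finset.sum_ite_eq]
      split_ifs
      · exact le_refl _
      · positivity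
    · have h1 : ∑ m ∈ F, (if idS S * m.1 = idS T * n.1 then
          M ^ 2 * (nS np T * nm n.1)⁻¹ else 0) = 0 := by
        refine Finset.sum_eq_zero fun m _ => ?_
        rw [if_neg fun h => hex ⟨m, h⟩]
      rw [h1]
      split_ifs
      · positivity
      · exact le_refl _
  -- the quotients
  have hq : ∀ n : NI K, idS (S \ T) ∣ n.1 → ∃ q : Ideal (𝓞 K), n.1 = idS (S \ T) * q :=
    fun n h => h
  choose! q hq' using hq
  have hsum : ∑ n ∈ F', (nm n.1)⁻¹ ≤ (nS np (S \ T))⁻¹ * (|C| * (1 + Real.log (3 * Z))) := by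
    have hqn : ∀ n ∈ F', nm n.1 = nS np (S \ T) * nm (q n) := by
      intro n hn
      have h1 := hq' n (Finset.mem_filter.1 hn).2
      conv_lhs => rw [h1]
      rw [Pool.Agent.H3.CV.nm_mul, Pool.Agent.H3.CV.nm_idS]
    have hinj : Set.InjOn q F' := by
      intro n hn n' hn' h
      have h1 := hq' n (Finset.mem_filter.1 hn).2
      have h2 := hq' n' (Finset.mem_filter.1 hn').2
      apply Subtype.ext
      rw [h1, h2, h]
    have h2 : ∑ n ∈ F', (nm n.1)⁻¹ = (nS np (S \ T))⁻¹ * ∑ I ∈ F'.image q, (nm I)⁻¹ := by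
      rw [Finset.sum_image hinj, Finset.mul_sum]
      refine Finset.sum_congr rfl fun n hn => ?_
      rw [hqn n hn, mul_inv]
    rw [h2]
    refine mul_le_mul_of_nonneg_left ?_ (by positivity)
    have h3 := (hC (3 * Z) (F'.image q) (by linarith) ?_).2
    · have h4 : 0 ≤ Real.log (3 * Z) := Real.log_nonneg (by linarith)
      exact h3.trans (mul_le_mul_of_nonneg_right (le_abs_self _) (by linarith))
    · intro I hI
      obtain ⟨n, hn, rfl⟩ := Finset.mem_image.1 hI
      have hne : q n ≠ ⊥ := by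
        intro h0
        have h1 := hq' n (Finset.mem_filter.1 hn).2
        rw [h0, Ideal.mul_bot] at h1
        exact n.2 h1
      refine ⟨hne, ?_⟩
      have h5 : nm n.1 ≤ 3 * Z := hfin.mem_toFinset.1 (Finset.mem_filter.1 hn).1
      rw [hqn n hn] at h5
      have h6 := nm_pos' hne
      nlinarith
  have hAB : nS np S = nS np (S \ T) * nS np (S ∩ T) := by
    unfold nS
    rw [← Finset.prod_union (Finset.disjoint_sdiff_inter S T), Finset.sdiff_union_inter]
  calc |DD P Z G S T| = |∑ m ∈ F, ∑ n ∈ F, t m n| := by rw [hDD]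
    _ ≤ ∑ m ∈ F, ∑ n ∈ F, |t m n| :=
        (Finset.abs_sum_le_sum_abs _ _).trans
          (Finset.sum_le_sum fun m _ => Finset.abs_sum_le_sum_abs _ _)
    _ ≤ ∑ m ∈ F, ∑ n ∈ F, (if idS S * m.1 = idS T * n.1 then
          M ^ 2 * (nS np T * nm n.1)⁻¹ else 0) :=
        Finset.sum_le_sum fun m _ => Finset.sum_le_sum fun n _ => hterm m n
    _ = ∑ n ∈ F, ∑ m ∈ F, (if idS S * m.1 = idS T * n.1 then
          M ^ 2 * (nS np T * nm n.1)⁻¹ else 0) := Finset.sum_comm
    _ ≤ ∑ n ∈ F, (if idS (S \ T) ∣ n.1 then M ^ 2 * (nS np T * nm n.1)⁻¹ else 0) :=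
        Finset.sum_le_sum hcol
    _ = ∑ n ∈ F', M ^ 2 * (nS np T * nm n.1)⁻¹ := (Finset.sum_filter _ _).symm
    _ = M ^ 2 * (nS np T)⁻¹ * ∑ n ∈ F', (nm n.1)⁻¹ := by
        rw [Finset.mul_sum]
        refine Finset.sum_congr rfl fun n _ => ?_
        rw [mul_inv]
        ring
    _ ≤ M ^ 2 * (nS np T)⁻¹ * ((nS np (S \ T))⁻¹ * (|C| * (1 + Real.log (3 * Z)))) :=
        mul_le_mul_of_nonneg_left hsum (by positivity)
    _ = |C| * M ^ 2 * (1 + Real.log (3 * Z)) * (nS np (S ∩ T) / (nS np S * nS np T)) := by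
        rw [hAB]
        field_simp

open scoped Classical in
private theorem Dab_eq {K : Type} [Field K] [NumberField K] (P Z Q : ℝ) (W G : ℝ → ℝ)
    (S T : Finset (PrI K)) :
    (nS np S * nS np T) ^ (-(1 / 2) : ℝ) * Dab P Z Q W G (idS S) (idS T) =
      TW K P Q W * DD P Z G S T := by
  unfold Dab DD
  rw [mul_left_comm]
  congr 1
  unfold sumC
  rw [← tsum_mul_left]
  refine tsum_congr fun m => ?_
  by_cases hm : Cp P m.1
  · rw [if_pos hm, if_pos hm, ← tsum_mul_left]
    refine tsum_congr fun n => ?_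
    by_cases hn : Cp P n.1
    · rw [if_pos hn, if_pos hn]
      beta_reduce
      by_cases h : idS S * m.1 = idS T * n.1
      · rw [if_pos h, if_pos h]
        have hA := one_le_nS S
        have hB := one_le_nS T
        have hm1 := nm_pos' m.2
        have hn1 := nm_pos' n.2
        have hA0 : 0 < nS np S := by linarith
        have hB0 : 0 < nS np T := by linarith
        have hm0 : 0 < nm m.1 := by linarith
        have hn0 : 0 < nm n.1 := by linarith
        have h1 : nS np S * nm m.1 = nS np T * nm n.1 := by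
          have := congrArg nm h
          rwa [Pool.Agent.H3.CV.nm_mul, Pool.Agent.H3.CV.nm_mul, Pool.Agent.H3.CV.nm_idS,
            Pool.Agent.H3.CV.nm_idS] at this
        have h2 : (nS np S * nS np T) ^ (-(1 / 2) : ℝ) * (nm m.1 ^ (-(1 / 2) : ℝ) *
            nm n.1 ^ (-(1 / 2) : ℝ)) = (nS np T * nm n.1)⁻¹ := by
          rw [← Real.mul_rpow hm0.le hn0.le, ← Real.mul_rpow (by positivity) (by positivity)]
          have h3 : nS np S * nS np T * (nm m.1 * nm n.1) = (nS np T * nm n.1) ^ (2 : ℝ) := by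
            rw [Real.rpow_two]
            calc nS np S * nS np T * (nm m.1 * nm n.1)
                = (nS np S * nm m.1) * (nS np T * nm n.1) := by ring
              _ = (nS np T * nm n.1) ^ 2 := by rw [h1]; ring
          rw [h3, ← Real.rpow_mul (by positivity)]
          norm_num
          rw [Real.rpow_neg_one, mul_inv, mul_comm]
        unfold gz
        rw [← h2]
        ring
      · rw [if_neg h, if_neg h, mul_zero]
    · rw [if_neg hn, if_neg hn, mul_zero]
  · rw [if_neg hm, if_neg hm, mul_zero]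

/-- (DAP) the diagonal term. -/
theorem pf_DAP (h1 : T_TWA) (_h2 : T_IDF) : T_DAP := by
  intro K _ _ _ P W G θ e hW hG hP
  obtain ⟨C₁, hC₁, hT⟩ := h1 K P W hW
  obtain ⟨C₂, hC₂, hD⟩ := DD_bound (K := K)
  obtain ⟨M, hM0, hM⟩ := G_bdd' hG
  have he := hP.epos
  set L : ℝ := 1 + Real.log 3 + (1 + e) * 8 with hL
  have hL0 : 0 ≤ L := by
    have : 0 ≤ Real.log 3 := Real.log_nonneg (by norm_num)
    positivity
  refine ⟨C₁ * (C₂ * M ^ 2 * L), 1 / 8, 1, by positivity, by norm_num, le_refl _, ?_⟩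
  intro Q hQ S _ T _
  have hQ0 : 0 < Q := by linarith
  have hZ : 1 ≤ Q ^ (1 + e) := Real.one_le_rpow hQ (by linarith)
  have e1 := Dab_eq P (Q ^ (1 + e)) Q W G S T
  rw [e1]
  change |TW K P Q W * DD P (Q ^ (1 + e)) G S T - rk K P * W1 W * Q ^ 2 *
    DD P (Q ^ (1 + e)) G S T| ≤ _
  rw [← sub_mul, abs_mul]
  have h3 := hD P (Q ^ (1 + e)) M G S T hZ hM0 hM hG.high
  have h4 := hT Q hQ
  have hAB : 0 ≤ nS np (S ∩ T) / (nS np S * nS np T) := by
    have hA := one_le_nS S
    have hB := one_le_nS T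
    have hE := one_le_nS (S ∩ T)
    positivity
  have h8 : 1 ≤ Q ^ (1 / 8 : ℝ) := Real.one_le_rpow hQ (by norm_num)
  have hlog : 1 + Real.log (3 * Q ^ (1 + e)) ≤ L * Q ^ (1 / 8 : ℝ) := by
    rw [Real.log_mul (by norm_num) (by positivity), Real.log_rpow hQ0]
    have h5 : Real.log Q ≤ Q ^ (1 / 8 : ℝ) / (1 / 8) := Real.log_le_rpow_div hQ0.le (by norm_num)
    have h6 : 0 ≤ Real.log 3 := Real.log_nonneg (by norm_num)
    rw [hL]
    nlinarith
  calc |TW K P Q W - rk K P * W1 W * Q ^ 2| * |DD P (Q ^ (1 + e)) G S T|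
      ≤ (C₁ * Q ^ (7 / 4 : ℝ)) * (C₂ * M ^ 2 * (1 + Real.log (3 * Q ^ (1 + e))) *
          (nS np (S ∩ T) / (nS np S * nS np T))) :=
        mul_le_mul h4 h3 (abs_nonneg _) (by positivity)
    _ ≤ (C₁ * Q ^ (7 / 4 : ℝ)) * (C₂ * M ^ 2 * (L * Q ^ (1 / 8 : ℝ)) *
          (nS np (S ∩ T) / (nS np S * nS np T))) := by
        refine mul_le_mul_of_nonneg_left ?_ (by positivity)
        refine mul_le_mul_of_nonneg_right ?_ hAB
        exact mul_le_mul_of_nonneg_left hlog (by positivity)
    _ = C₁ * (C₂ * M ^ 2 * L) * Er Q (1 / 8) S T := by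
        have h9 : Q ^ (7 / 4 : ℝ) * Q ^ (1 / 8 : ℝ) = Q ^ (2 - 1 / 8 : ℝ) := by
          rw [← Real.rpow_add hQ0]
          norm_num
        unfold Er
        rw [← h9]
        ring

end

end Pool.Agent.H87.HH
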