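import Pool.Agent.H33.HH.TD
import Pool.Agent.H46.HH.NRM

/-!
HalfOfAll, row NVK: Cauchy-Schwarz for the moments of one field.
-/

set_option autoImplicit false

open NumberField Filter Topology
open scoped ContDiff nonZeroDivisors

namespace Pool.Agent.H87.HH

open Pool.Agent.H33.HH Pool.Agent.H28.RC Pool.Agent.H37.CV Pool.Agent.H25.HK

/-- the inequality of Cauchy and Schwarz with the terms which are not used -/
theorem cs_abs {ι κ : Type*} (F : Finset ι) (X : ι → Finset κ) (w : ι → ℝ) (B : κ → ℂ)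
    (nv : κ → Prop) [DecidablePred nv] (hw : ∀ q ∈ F, 0 ≤ w q) (δ : ℝ)
    (hB : ∀ q ∈ F, ∀ χ ∈ X q, ¬ nv χ → ‖B χ‖ ≤ δ) (hδ : 0 ≤ δ) :
    ‖∑ q ∈ F, (w q : ℂ) * ∑ χ ∈ X q, B χ‖ ≤
      Real.sqrt ((∑ q ∈ F, w q * (((X q).filter nv).card : ℝ)) *
        ∑ q ∈ F, w q * ∑ χ ∈ X q, ‖B χ‖ ^ 2) + δ * ∑ q ∈ F, w q * ((X q).card : ℝ) := by
  have h1 : ‖∑ q ∈ F, (w q : ℂ) * ∑ χ ∈ X q, B χ‖ ≤
      (∑ q ∈ F, ∑ χ ∈ (X q).filter nv, w q * ‖B χ‖) + δ * ∑ q ∈ F, w q * ((X q).card : ℝ) := by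
    refine (norm_sum_le _ _).trans ?_
    rw [Finset.mul_sum, ← Finset.sum_add_distrib]
    refine Finset.sum_le_sum fun q hq => ?_
    have hwq := hw q hq
    rw [norm_mul, Complex.norm_real, Real.norm_of_nonneg hwq, ← Finset.mul_sum]
    have h2 : ‖∑ χ ∈ X q, B χ‖ ≤ ∑ χ ∈ (X q).filter nv, ‖B χ‖ + δ * ((X q).card : ℝ) := by
      refine (norm_sum_le _ _).trans ?_
      rw [← Finset.sum_filter_add_sum_filter_not (X q) nv]
      have h3 : ∑ χ ∈ (X q).filter (fun χ => ¬ nv χ), ‖B χ‖ ≤ δ * ((X q).card : ℝ) := by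
        calc ∑ χ ∈ (X q).filter (fun χ => ¬ nv χ), ‖B χ‖ ≤
            ∑ _χ ∈ (X q).filter (fun χ => ¬ nv χ), δ := by
              refine Finset.sum_le_sum fun χ hχ => ?_
              rw [Finset.mem_filter] at hχ
              exact hB q hq χ hχ.1 hχ.2
          _ = (((X q).filter (fun χ => ¬ nv χ)).card : ℝ) * δ := by
              rw [Finset.sum_const, nsmul_eq_mul]
          _ ≤ ((X q).card : ℝ) * δ := by
              refine mul_le_mul_of_nonneg_right ?_ hδ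
              exact_mod_cast Finset.card_filter_le _ _
          _ = _ := mul_comm _ _
      linarith
    calc w q * ‖∑ χ ∈ X q, B χ‖ ≤ w q * (∑ χ ∈ (X q).filter nv, ‖B χ‖ + δ * ((X q).card : ℝ)) :=
          mul_le_mul_of_nonneg_left h2 hwq
      _ = _ := by ring
  refine h1.trans (add_le_add_left ?_ _)
  apply Real.le_sqrt_of_sq_le
  have e1 : ∑ q ∈ F, ∑ χ ∈ (X q).filter nv, w q * ‖B χ‖ =
      ∑ p ∈ F.sigma (fun q => (X q).filter nv), w p.1 * ‖B p.2‖ := by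
    rw [Finset.sum_sigma]
  have e2 : ∑ q ∈ F, w q * (((X q).filter nv).card : ℝ) =
      ∑ p ∈ F.sigma (fun q => (X q).filter nv), w p.1 := by
    rw [Finset.sum_sigma]
    refine Finset.sum_congr rfl fun q _ => ?_
    simp only
    rw [Finset.sum_const, nsmul_eq_mul, mul_comm]
  have e3 : ∑ p ∈ F.sigma (fun q => (X q).filter nv), w p.1 * ‖B p.2‖ ^ 2 ≤
      ∑ q ∈ F, w q * ∑ χ ∈ X q, ‖B χ‖ ^ 2 := by
    rw [Finset.sum_sigma]
    refine Finset.sum_le_sum fun q hq => ?_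
    simp only
    rw [← Finset.mul_sum]
    refine mul_le_mul_of_nonneg_left ?_ (hw q hq)
    exact Finset.sum_le_sum_of_subset_of_nonneg (Finset.filter_subset _ _)
      fun χ _ _ => by positivity
  have e4 : (∑ p ∈ F.sigma (fun q => (X q).filter nv), w p.1 * ‖B p.2‖) ^ 2 ≤
      (∑ p ∈ F.sigma (fun q => (X q).filter nv), w p.1) *
        ∑ p ∈ F.sigma (fun q => (X q).filter nv), w p.1 * ‖B p.2‖ ^ 2 := by
    refine Finset.sum_sq_le_sum_mul_sum_of_sq_le_mul _ ?_ ?_ ?_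
    · intro p hp
      exact hw _ (Finset.mem_sigma.1 hp).1
    · intro p hp
      exact mul_nonneg (hw _ (Finset.mem_sigma.1 hp).1) (by positivity)
    · intro p _
      exact le_of_eq (by ring)
  rw [e1, e2]
  refine e4.trans (mul_le_mul_of_nonneg_left e3 ?_)
  exact Finset.sum_nonneg fun p hp => hw _ (Finset.mem_sigma.1 hp).1

/-- the arithmetic -/
theorem arith {ε A N M2 M0 M1 r u : ℝ} (hε : 0 < ε) (hε2 : ε < 1 / 2) (hA : 0 < A) (hN : 0 ≤ N)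
    (h0 : (1 - ε / 4) * A - ε / 32 * A ≤ M0) (hM1 : M0 - r ≤ M1) (hr : r ≤ ε / 64 * A)
    (hu : u ≤ ε / 64 * A) (hcs : M1 ≤ Real.sqrt (N * M2) + u)
    (hM2 : M2 ≤ (1 + 1 / (1 - ε / 2) + ε / 32) * A + ε / 32 * A) :
    (1 / 2 - ε) * A ≤ N := by
  have h1 : (1 - 5 * ε / 16) * A ≤ Real.sqrt (N * M2) := by
    have : (1 - 5 * ε / 16) * A = (1 - ε / 4) * A - ε / 32 * A - ε / 64 * A - ε / 64 * A := by ring
    linarith
  have hU : 1 + 1 / (1 - ε / 2) ≤ 2 + 2 * ε / 3 := by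
    have h2 : 0 < 1 - ε / 2 := by linarith
    have : 1 / (1 - ε / 2) ≤ 1 + 2 * ε / 3 := by
      rw [div_le_iff₀ h2]
      nlinarith
    linarith
  have hM2' : M2 ≤ (2 + 3 * ε / 4) * A := by nlinarith
  have hpos : 0 ≤ (1 - 5 * ε / 16) * A := mul_nonneg (by linarith) hA.le
  have h3 : ((1 - 5 * ε / 16) * A) ^ 2 ≤ N * M2 := by
    have hnn : 0 ≤ N * M2 := by
      by_contra hneg
      push Not at hneg
      have h4 : Real.sqrt (N * M2) = 0 := Real.sqrt_eq_zero_of_nonpos hneg.le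
      rw [h4] at h1
      have : 0 < (1 - 5 * ε / 16) * A := mul_pos (by linarith) hA
      linarith
    calc ((1 - 5 * ε / 16) * A) ^ 2 ≤ Real.sqrt (N * M2) ^ 2 := pow_le_pow_left₀ hpos h1 2
      _ = N * M2 := Real.sq_sqrt hnn
  have h5 : ((1 - 5 * ε / 16) * A) ^ 2 ≤ N * ((2 + 3 * ε / 4) * A) :=
    h3.trans (mul_le_mul_of_nonneg_left hM2' hN)
  have h6 : (1 - 5 * ε / 16) ^ 2 * A ≤ N * (2 + 3 * ε / 4) := by
    have h7 : ((1 - 5 * ε / 16) ^ 2 * A) * A ≤ (N * (2 + 3 * ε / 4)) * A := by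
      calc _ = ((1 - 5 * ε / 16) * A) ^ 2 := by ring
        _ ≤ _ := h5
        _ = _ := by ring
    exact le_of_mul_le_mul_right h7 hA
  have h8 : (1 / 2 - ε) * (2 + 3 * ε / 4) ≤ (1 - 5 * ε / 16) ^ 2 := by nlinarith
  have h9 : (1 / 2 - ε) * A * (2 + 3 * ε / 4) ≤ N * (2 + 3 * ε / 4) := by
    calc _ = (1 / 2 - ε) * (2 + 3 * ε / 4) * A := by ring
      _ ≤ (1 - 5 * ε / 16) ^ 2 * A := mul_le_mul_of_nonneg_right h8 hA.le
      _ ≤ _ := h6
  exact le_of_mul_le_mul_right h9 (by linarith)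

section

variable {K : Type} [Field K] [NumberField K]

theorem fin_np' (M : ℝ) : {P : PrI K | np P ≤ M}.Finite := by
  refine Set.Finite.of_finite_image (f := Subtype.val) ?_ Subtype.val_injective.injOn
  refine (Ideal.finite_setOfPred_absNorm_le (S := 𝓞 K) ⌊M⌋₊).subset ?_
  rintro _ ⟨P, hP, rfl⟩
  have h1 : np P ≤ M := hP
  unfold np nm at h1
  exact Nat.le_floor h1

theorem mem_PM' {M : ℝ} {P : PrI K} : P ∈ PM K M ↔ np P ≤ M := by
  unfold PM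
  rw [dif_pos (fin_np' M)]
  simp

theorem fin_NI (x : ℝ) : {q : NI K | nm q.1 ≤ x}.Finite := by
  refine Set.Finite.of_finite_image (f := Subtype.val) ?_ Subtype.val_injective.injOn
  refine (Ideal.finite_setOfPred_absNorm_le (S := 𝓞 K) ⌊x⌋₊).subset ?_
  rintro _ ⟨q, hq, rfl⟩
  have h1 : nm q.1 ≤ x := hq
  unfold nm at h1
  exact Nat.le_floor h1

theorem np_two (p : PrI K) : 2 ≤ np p := by
  have h0 : Ideal.absNorm p.1 ≠ 0 := by
    rw [Ne, Ideal.absNorm_eq_zero_iff]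
    exact p.2.2
  have h1 : Ideal.absNorm p.1 ≠ 1 := by
    rw [Ne, Ideal.absNorm_eq_one_iff]
    exact p.2.1.ne_top
  have h2 : 2 ≤ Ideal.absNorm p.1 := by omega
  unfold np nm
  exact_mod_cast h2

theorem exists_PrI (K : Type) [Field K] [NumberField K] : Nonempty (PrI K) := by
  obtain ⟨M, hM⟩ := Ideal.exists_maximal (𝓞 K)
  refine ⟨⟨M, hM.isPrime, ?_⟩⟩
  rintro rfl
  exact NumberField.RingOfIntegers.not_isField K (Ring.isField_iff_maximal_bot.2 hM)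

theorem IQ_pos (K : Type) [Field K] [NumberField K] [IQ K] (P : ℝ) :
    0 < hc K ∧ 0 < wu K ∧ 0 < rk K P := by
  have h1 : 0 < hc K := by
    unfold hc
    exact_mod_cast Fintype.card_pos
  have h2 : 0 < wu K := by
    have := Pool.Agent.H46.HH.fin K
    unfold wu
    exact_mod_cast Nat.card_pos
  refine ⟨h1, h2, ?_⟩
  have h3 : 0 < sd K := by
    unfold sd
    refine Real.sqrt_pos.2 (abs_pos.2 ?_)
    exact_mod_cast discr_ne_zero K
  unfold rk rh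
  refine mul_pos (by positivity) (Finset.prod_pos fun p _ => ?_)
  have := np_two p
  have h4 : 1 / np p ≤ 1 / 2 := one_div_le_one_div_of_le (by norm_num) this
  linarith

end

open scoped Classical in
/-- the inequality for one `Q` -/
theorem NVK_core (K : Type) [Field K] [NumberField K] [IsTotallyComplex K] (P y Z Q δ δ' : ℝ)
    (W G : ℝ → ℝ) (k : Ideal (𝓞 K)) (hW : IsW W) (hQ : 1 ≤ Q) (hk : k ≠ ⊥)
    (hIEX : ∀ m : Ideal (𝓞 K), m ≠ ⊥ → (Pr K m).Finite) (hδ : 0 ≤ δ')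
    (hlow : ∀ u, u ≤ δ → W u = 0) (hδQ : 1 ≤ δ * Q)
    (hB : ∀ χ : RCC K, χ.f ≠ ⊤ → nm χ.f ≤ nm k * Q → ¬ NV χ → ‖Bv P y Z G χ.ψ‖ ≤ δ') :
    0 ≤ (sumC P fun q => W (nm q / Q) * ({χ : RCC K | χ ∈ Pr K (k * q) ∧ NV χ}.ncard : ℝ)) ∧
    ‖M1 P y Z Q W G k‖ ≤ Real.sqrt ((sumC P fun q => W (nm q / Q) *
      ({χ : RCC K | χ ∈ Pr K (k * q) ∧ NV χ}.ncard : ℝ)) * M2 P y Z Q W G k) +
      δ' * M0 P Q W k := by
  have hQ0 : 0 < Q := by linarith
  have hfin : {q : NI K | Cp P q.1 ∧ W (nm q.1 / Q) ≠ 0}.Finite := by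
    refine (fin_NI Q).subset ?_
    rintro q ⟨-, hq⟩
    by_contra hc
    apply hq
    refine hW.high _ ?_
    rw [le_div_iff₀ hQ0, one_mul]
    exact (not_le.1 hc).le
  set F := hfin.toFinset with hF
  have hmF : ∀ q, q ∈ F ↔ Cp P q.1 ∧ W (nm q.1 / Q) ≠ 0 := fun q => by rw [hF]; simp
  have hXf : ∀ q : NI K, (Pr K (k * q.1)).Finite := fun q => hIEX _ (mul_ne_zero hk q.2)
  set X : NI K → Finset (RCC K) := fun q => (hXf q).toFinset with hX
  have hmX : ∀ q χ, χ ∈ X q ↔ χ.f = k * q.1 := fun q χ => by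
    rw [hX]
    simp [Pr]
  have hsum : ∀ f : Ideal (𝓞 K) → ℝ, (sumC P fun q => W (nm q / Q) * f q) =
      ∑ q ∈ F, W (nm q.1 / Q) * f q.1 := by
    intro f
    unfold sumC
    rw [tsum_eq_sum (s := F)]
    · refine Finset.sum_congr rfl fun q hq => ?_
      rw [if_pos ((hmF q).1 hq).1]
    · intro q hq
      rw [hmF] at hq
      split_ifs with h
      · have : W (nm q.1 / Q) = 0 := by
          by_contra hne
          exact hq ⟨h, hne⟩
        simp only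
        rw [this, zero_mul]
      · rfl
  have hncard : ∀ q : NI K, ({χ : RCC K | χ ∈ Pr K (k * q.1) ∧ NV χ}.ncard : ℝ) =
      (((X q).filter NV).card : ℝ) := by
    intro q
    rw [← Set.ncard_coe_finset]
    congr 2
    ext χ
    rw [Finset.coe_filter]
    simp only [Set.mem_ofPred_eq, hmX]
    rfl
  have hncard2 : ∀ q : NI K, ((Pr K (k * q.1)).ncard : ℝ) = ((X q).card : ℝ) := by
    intro q
    rw [← Set.ncard_coe_finset, hX]
    simp
  have hN : (sumC P fun q => W (nm q / Q) *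
      ({χ : RCC K | χ ∈ Pr K (k * q) ∧ NV χ}.ncard : ℝ)) =
      ∑ q ∈ F, W (nm q.1 / Q) * (((X q).filter NV).card : ℝ) := by
    rw [hsum fun q => ({χ : RCC K | χ ∈ Pr K (k * q) ∧ NV χ}.ncard : ℝ)]
    exact Finset.sum_congr rfl fun q _ => by rw [hncard]
  have hM0 : M0 P Q W k = ∑ q ∈ F, W (nm q.1 / Q) * ((X q).card : ℝ) := by
    unfold M0
    rw [hsum fun q => ((Pr K (k * q)).ncard : ℝ)]
    exact Finset.sum_congr rfl fun q _ => by rw [hncard2]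
  have hM2 : M2 P y Z Q W G k =
      ∑ q ∈ F, W (nm q.1 / Q) * ∑ χ ∈ X q, ‖Bv P y Z G χ.ψ‖ ^ 2 := by
    unfold M2
    rw [hsum fun q => ∑ᶠ χ ∈ Pr K (k * q), ‖Bv P y Z G χ.ψ‖ ^ 2]
    refine Finset.sum_congr rfl fun q _ => ?_
    rw [finsum_mem_eq_finite_toFinset_sum _ (hXf q)]
  have hM1 : M1 P y Z Q W G k =
      ∑ q ∈ F, ((W (nm q.1 / Q) : ℝ) : ℂ) * ∑ χ ∈ X q, Bv P y Z G χ.ψ := by
    unfold M1
    rw [tsum_eq_sum (s := F)]
    · refine Finset.sum_congr rfl fun q hq => ?_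
      rw [if_pos ((hmF q).1 hq).1, finsum_mem_eq_finite_toFinset_sum _ (hXf q)]
    · intro q hq
      rw [hmF] at hq
      split_ifs with h
      · have : W (nm q.1 / Q) = 0 := by
          by_contra hne
          exact hq ⟨h, hne⟩
        rw [this, Complex.ofReal_zero, zero_mul]
      · rfl
  have hw : ∀ q ∈ F, 0 ≤ W (nm q.1 / Q) := fun q _ => (hW.bd _).1
  rw [hN, hM1, hM2, hM0]
  refine ⟨Finset.sum_nonneg fun q hq => mul_nonneg (hw q hq) (Nat.cast_nonneg _), ?_⟩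
  refine cs_abs F X (fun q => W (nm q.1 / Q)) (fun χ => Bv P y Z G χ.ψ) NV hw δ' ?_ hδ
  intro q hq χ hχ hnv
  rw [hmX] at hχ
  have hqW := ((hmF q).1 hq).2
  have hlt : δ < nm q.1 / Q := by
    by_contra hc
    exact hqW (hlow _ (not_lt.1 hc))
  have hle : nm q.1 ≤ Q := by
    by_contra hc
    apply hqW
    refine hW.high _ ?_
    rw [le_div_iff₀ hQ0, one_mul]
    exact (not_le.1 hc).le
  have hq1 : 1 < nm q.1 := by
    rw [lt_div_iff₀ hQ0] at hlt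
    linarith
  refine hB χ ?_ ?_ hnv
  · rw [hχ]
    intro htop
    have h2 : q.1 = ⊤ := by
      rw [eq_top_iff, ← htop]
      exact Ideal.mul_le_right
    rw [h2] at hq1
    unfold nm at hq1
    rw [Ideal.absNorm_top] at hq1
    norm_num at hq1
  · rw [hχ]
    have h3 : nm (k * q.1) = nm k * nm q.1 := by
      unfold nm
      rw [map_mul]
      push_cast
      rfl
    rw [h3]
    refine mul_le_mul_of_nonneg_left hle ?_
    unfold nm
    positivity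

theorem pf_NVK (h1 : T_FMM) (h2 : T_SMM) (h3 : T_MZ) (h4 : T_BSM) (h5 : T_GEX) (h6 : T_IEX)
    (h7 : T_PHM) : T_NVK := by
  intro K _ _ _ W hW hW1 ε hε
  have hitc : IsTotallyComplex K := Pool.Agent.H46.HH.itc K
  obtain ⟨G, hG⟩ := h5
  have hIEX : ∀ m : Ideal (𝓞 K), m ≠ ⊥ → (Pr K m).Finite := fun m hm => (h6 K m hm).1
  obtain ⟨δ, hδ, hlow⟩ := hW.low
  obtain ⟨p₀⟩ := exists_PrI K
  have hnn : ∀ (P Q : ℝ) (k : Ideal (𝓞 K)),
      0 ≤ sumC P fun q => W (nm q / Q) *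
        ({χ : RCC K | χ ∈ Pr K (k * q) ∧ NV χ}.ncard : ℝ) := by
    intro P Q k
    unfold sumC
    refine tsum_nonneg fun q => ?_
    split_ifs
    · exact mul_nonneg (hW.bd _).1 (Nat.cast_nonneg _)
    · exact le_rfl
  have hA0 : ∀ (P Q : ℝ) (k : Ideal (𝓞 K)), k ≠ ⊥ → 0 ≤ A0 P Q W k := by
    intro P Q k hk
    obtain ⟨e1, e2, e3⟩ := IQ_pos K P
    have e4 := ((h7 K).2.2 k hk).1
    unfold A0
    positivity
  by_cases hε2 : 1 / 2 ≤ ε
  · refine ⟨0, fun P _ k hk => ⟨1, le_rfl, fun Q _ => ?_⟩⟩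
    refine le_trans ?_ (hnn P Q k)
    exact mul_nonpos_of_nonpos_of_nonneg (by linarith) (hA0 P Q k hk.1)
  push Not at hε2
  obtain ⟨P₀, hP₀⟩ := h3 K W hW hW1 (ε / 4) (by linarith)
  refine ⟨max P₀ (np p₀), fun P hP k hk => ?_⟩
  have hSP : (SP K P).Nonempty := ⟨p₀, mem_PM'.2 ((le_max_right _ _).trans hP)⟩
  have hPar : Par (1 - ε / 2) (ε / 16) := ⟨by linarith, by linarith, by linarith⟩
  obtain ⟨e1, e2, e3⟩ := IQ_pos K P
  have e4 := ((h7 K).2.2 k hk.1).1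
  rcases e4.eq_or_lt with e5 | e5
  · refine ⟨1, le_rfl, fun Q _ => ?_⟩
    refine le_trans ?_ (hnn P Q k)
    unfold A0
    rw [← e5]
    simp
  set a := hc K / wu K * phs k * rk K P * W1 W with ha
  have ha0 : 0 < a := by positivity
  have hAa : ∀ Q, A0 P Q W k = a * Q ^ 2 := fun Q => rfl
  obtain ⟨Qa, hQa1, hQa⟩ := hP₀ P ((le_max_left _ _).trans hP) k hk (ε / 32 * a) (by positivity)
  obtain ⟨Qb, hQb1, hQb⟩ := h2 K P W G k (1 - ε / 2) (ε / 16) hSP hW hW1 hG hk hPar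
    (min (ε / 32) (ε / 32 * a)) (by positivity)
  obtain ⟨C, Qc, hC, hQc1, hQc⟩ := h1 K P W G k (1 - ε / 2) (ε / 16) hW hG hk hPar
  have hκ : 0 < nm k := by
    unfold nm
    have : Ideal.absNorm k ≠ 0 := by
      rw [Ne, Ideal.absNorm_eq_zero_iff]
      exact hk.1
    have := Nat.pos_of_ne_zero this
    exact_mod_cast this
  obtain ⟨Qd, hQd1, hQd⟩ := h4 K G hG P (nm k) (1 - ε / 2) (ε / 16) hκ (by linarith) (by linarith)
  obtain ⟨Qe, hQe⟩ : ∃ Qe : ℝ, ∀ Q, Qe ≤ Q → C * Q ^ (-(ε / 16)) ≤ ε / 64 * a := by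
    have ht : Tendsto (fun x : ℝ => C * x ^ (-(ε / 16))) atTop (𝓝 (C * 0)) :=
      (tendsto_rpow_neg_atTop (by linarith)).const_mul C
    rw [mul_zero] at ht
    have hev := ht.eventually (Iic_mem_nhds (show (0 : ℝ) < ε / 64 * a by positivity))
    obtain ⟨Qe, h⟩ := eventually_atTop.1 hev
    exact ⟨Qe, fun Q hQ => h Q hQ⟩
  refine ⟨max 1 (max Qa (max Qb (max Qc (max Qd (max Qe (max (1 / δ) (128 / ε))))))), le_max_left _ _,
    fun Q hQ => ?_⟩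
  simp only [max_le_iff] at hQ
  obtain ⟨g1, g2, g3, g4, g5, g6, g7, g8⟩ := hQ
  have hQ0 : 0 < Q := by linarith
  obtain ⟨m0l, m0u⟩ := hQa Q g2
  have m2 := hQb Q g3
  have m1 := hQc Q g4
  have hbs := hQd Q g5
  have hδQ : 1 ≤ δ * Q := by
    rw [div_le_iff₀ hδ] at g7
    linarith
  obtain ⟨hN0, hcs⟩ := NVK_core K P (Q ^ (1 - ε / 2)) (Q ^ (1 + ε / 16)) Q δ (1 / Q) W G k hW g1
    hk.1 hIEX (by positivity) hlow hδQ (by
      intro χ hχ hχ2 hnv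
      obtain ⟨⟨Z, hZ⟩, hs⟩ := hbs χ hχ hχ2
      refine hs ⟨Z, hZ, ?_⟩
      by_contra hne
      exact hnv ⟨Z, hZ, hne⟩)
  have hQ2 : 0 < Q ^ 2 := by positivity
  have hA : 0 < A0 P Q W k := by rw [hAa]; positivity
  refine arith hε hε2 hA hN0 (M0 := M0 P Q W k)
    (M1 := ‖M1 P (Q ^ (1 - ε / 2)) (Q ^ (1 + ε / 16)) Q W G k‖)
    (r := C * Q ^ (2 - ε / 16)) (u := 1 / Q * M0 P Q W k)
    (M2 := M2 P (Q ^ (1 - ε / 2)) (Q ^ (1 + ε / 16)) Q W G k) ?_ ?_ ?_ ?_ hcs ?_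
  · rw [hAa] at m0l ⊢
    linarith
  · have h8 : |M0 P Q W k| ≤ ‖M1 P (Q ^ (1 - ε / 2)) (Q ^ (1 + ε / 16)) Q W G k‖ +
        C * Q ^ (2 - ε / 16) := by
      have h9 : ‖((M0 P Q W k : ℝ) : ℂ)‖ = |M0 P Q W k| := by
        rw [Complex.norm_real, Real.norm_eq_abs]
      rw [← h9]
      have h10 : ((M0 P Q W k : ℝ) : ℂ) = M1 P (Q ^ (1 - ε / 2)) (Q ^ (1 + ε / 16)) Q W G k -
          (M1 P (Q ^ (1 - ε / 2)) (Q ^ (1 + ε / 16)) Q W G k - ((M0 P Q W k : ℝ) : ℂ)) := by ring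
      rw [h10]
      exact (norm_sub_le _ _).trans (add_le_add_right m1 _)
    have := le_abs_self (M0 P Q W k)
    linarith
  · have h8 : Q ^ (2 - ε / 16) = Q ^ 2 * Q ^ (-(ε / 16)) := by
      rw [← Real.rpow_natCast Q 2, ← Real.rpow_add hQ0]
      norm_num
      rfl
    rw [h8, hAa]
    have h9 := hQe Q g6
    calc C * (Q ^ 2 * Q ^ (-(ε / 16))) = (C * Q ^ (-(ε / 16))) * Q ^ 2 := by ring
      _ ≤ (ε / 64 * a) * Q ^ 2 := mul_le_mul_of_nonneg_right h9 hQ2.le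
      _ = _ := by ring
  · rw [hAa] at m0u ⊢
    have h9 : M0 P Q W k ≤ 2 * (a * Q ^ 2) := by
      have : ε / 32 * a * Q ^ 2 ≤ 1 * (a * Q ^ 2) := by
        have := mul_pos ha0 hQ2
        nlinarith
      linarith
    rw [one_div, inv_mul_le_iff₀ hQ0]
    have h10 : 128 ≤ ε * Q := by
      rw [div_le_iff₀ hε] at g8
      linarith
    have h11 : 0 < a * Q ^ 2 := mul_pos ha0 hQ2
    calc M0 P Q W k ≤ 2 * (a * Q ^ 2) := h9
      _ = 128 / 64 * (a * Q ^ 2) := by norm_num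
      _ ≤ (ε * Q) / 64 * (a * Q ^ 2) := by
        refine mul_le_mul_of_nonneg_right ?_ h11.le
        exact div_le_div_of_nonneg_right h10 (by norm_num)
      _ = _ := by ring
  · refine m2.trans ?_
    have h8 : min (ε / 32) (ε / 32 * a) ≤ ε / 32 := min_le_left _ _
    have h9 : min (ε / 32) (ε / 32 * a) ≤ ε / 32 * a := min_le_right _ _
    rw [hAa] at hA ⊢
    have h10 : min (ε / 32) (ε / 32 * a) * Q ^ 2 ≤ ε / 32 * a * Q ^ 2 :=
      mul_le_mul_of_nonneg_right h9 hQ2.le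
    have h11 : (1 + 1 / (1 - ε / 2) + min (ε / 32) (ε / 32 * a)) * (a * Q ^ 2) ≤
        (1 + 1 / (1 - ε / 2) + ε / 32) * (a * Q ^ 2) :=
      mul_le_mul_of_nonneg_right (by linarith) hA.le
    linarith

end Pool.Agent.H87.HH
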