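import Pool.Agent.H33.HH.TD
import Pool.Agent.H34.PS.Targets

/-!
HalfOfAll, row RTB: the number of the roots of a quadratic congruence.
-/

set_option autoImplicit false

open Finset

namespace Pool.Agent.H87.HH

open Pool.Agent.H33.HH

/-- the square roots of `d` modulo `m` -/
def Rt (d : ℤ) (m : ℕ) : Finset ℕ := (range m).filter fun b : ℕ => (m : ℤ) ∣ (b : ℤ) ^ 2 - d

theorem mem_Rt {d : ℤ} {m b : ℕ} : b ∈ Rt d m ↔ b < m ∧ (m : ℤ) ∣ (b : ℤ) ^ 2 - d := by
  unfold Rt
  rw [mem_filter, mem_range]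

theorem mod_sq {d : ℤ} {m n b : ℕ} (hmn : m ∣ n) (h : (n : ℤ) ∣ (b : ℤ) ^ 2 - d) :
    (m : ℤ) ∣ ((b % m : ℕ) : ℤ) ^ 2 - d := by
  have h1 : (m : ℤ) ∣ (b : ℤ) ^ 2 - d := (Int.natCast_dvd_natCast.2 hmn).trans h
  have h2 : (m : ℤ) ∣ (b : ℤ) - ((b % m : ℕ) : ℤ) := by
    rw [Int.natCast_mod]
    exact Int.dvd_self_sub_emod
  have h3 : ((b % m : ℕ) : ℤ) ^ 2 - d = ((b : ℤ) ^ 2 - d) -
      ((b : ℤ) - ((b % m : ℕ) : ℤ)) * ((b : ℤ) + ((b % m : ℕ) : ℤ)) := by ring
  rw [h3]
  exact dvd_sub h1 (h2.mul_right _)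

theorem Rt_mul_le (d : ℤ) {m n : ℕ} (h : m.Coprime n) (hm : 0 < m) (hn : 0 < n) :
    (Rt d (m * n)).card ≤ (Rt d m).card * (Rt d n).card := by
  rw [← card_product]
  refine card_le_card_of_injOn (fun w => (w % m, w % n)) ?_ ?_
  · intro w hw
    rw [mem_coe, mem_Rt] at hw
    rw [mem_coe, mem_product]
    exact ⟨mem_Rt.2 ⟨Nat.mod_lt _ hm, mod_sq (dvd_mul_right m n) hw.2⟩,
      mem_Rt.2 ⟨Nat.mod_lt _ hn, mod_sq (dvd_mul_left n m) hw.2⟩⟩
  · intro w hw w' hw' hww
    rw [mem_coe, mem_Rt] at hw hw'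
    rw [Prod.mk.injEq] at hww
    have h1 : w ≡ w' [MOD m * n] := (Nat.modEq_and_modEq_iff_modEq_mul h).1 ⟨hww.1, hww.2⟩
    exact Nat.ModEq.eq_of_lt_of_lt h1 hw.1 hw'.1

theorem Rt_one (d : ℤ) : (Rt d 1).card = 1 := by
  unfold Rt
  have : (range 1).filter (fun b : ℕ => ((1 : ℕ) : ℤ) ∣ (b : ℤ) ^ 2 - d) = range 1 := by
    refine filter_true_of_mem fun w _ => ?_
    rw [Nat.cast_one]
    exact one_dvd _
  rw [this, card_range]

/-- at most two roots modulo the power of an odd prime not dividing `d` -/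
theorem Rt_pow_le_two (d : ℤ) {p : ℕ} (hp : p.Prime) (h2 : p ≠ 2) (hD : ¬ (p : ℤ) ∣ d) {k : ℕ}
    (hk : 0 < k) : (Rt d (p ^ k)).card ≤ 2 := by
  rcases (Rt d (p ^ k)).eq_empty_or_nonempty with he | ⟨b0, hb0⟩
  · rw [he]; simp
  rw [mem_Rt] at hb0
  have hpI : Prime (p : ℤ) := Nat.prime_iff_prime_int.1 hp
  have hpk : (p : ℤ) ∣ ((p ^ k : ℕ) : ℤ) := by
    push_cast
    exact dvd_pow_self _ hk.ne'
  have hnb : ¬ (p : ℤ) ∣ (b0 : ℤ) := by
    intro h
    apply hD
    have h1 : (p : ℤ) ∣ (b0 : ℤ) ^ 2 - d := hpk.trans hb0.2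
    have h3 : (p : ℤ) ∣ (b0 : ℤ) ^ 2 := dvd_pow h two_ne_zero
    exact (dvd_sub_right h3).1 h1
  have hsub : Rt d (p ^ k) ⊆ {b0, p ^ k - b0} := by
    intro b hb
    rw [mem_Rt] at hb
    rw [mem_insert, mem_singleton]
    have h3 : ((p ^ k : ℕ) : ℤ) ∣ ((b : ℤ) - b0) * ((b : ℤ) + b0) := by
      have h4 := dvd_sub hb.2 hb0.2
      have h5 : ((b : ℤ) ^ 2 - d) - ((b0 : ℤ) ^ 2 - d) = ((b : ℤ) - b0) * ((b : ℤ) + b0) := by
        ring
      rwa [h5] at h4
    have hcase : ((p ^ k : ℕ) : ℤ) ∣ ((b : ℤ) - b0) ∨ ((p ^ k : ℕ) : ℤ) ∣ ((b : ℤ) + b0) := by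
      by_cases hpd : (p : ℤ) ∣ ((b : ℤ) - b0)
      · left
        have hq : ¬ (p : ℤ) ∣ ((b : ℤ) + b0) := by
          intro hq
          have h6 : (p : ℤ) ∣ 2 * (b0 : ℤ) := by
            have := dvd_sub hq hpd
            have e : ((b : ℤ) + b0) - ((b : ℤ) - b0) = 2 * (b0 : ℤ) := by ring
            rwa [e] at this
          rcases hpI.dvd_or_dvd h6 with h7 | h7
          · have h8 : p ∣ 2 := by exact_mod_cast h7
            exact h2 ((Nat.prime_dvd_prime_iff_eq hp Nat.prime_two).1 h8)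
          · exact hnb h7
        push_cast at h3 ⊢
        exact (IsCoprime.pow_left ((Prime.coprime_iff_not_dvd hpI).2 hq)).dvd_of_dvd_mul_right h3
      · right
        push_cast at h3 ⊢
        exact (IsCoprime.pow_left ((Prime.coprime_iff_not_dvd hpI).2 hpd)).dvd_of_dvd_mul_left h3
    have hb0l : (b0 : ℤ) < ((p ^ k : ℕ) : ℤ) := by exact_mod_cast hb0.1
    have hbl : (b : ℤ) < ((p ^ k : ℕ) : ℤ) := by exact_mod_cast hb.1
    rcases hcase with h | h
    · left
      have h0 : (b : ℤ) - b0 = 0 := by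
        refine Int.eq_zero_of_abs_lt_dvd h ?_
        rw [abs_lt]
        constructor <;> omega
      omega
    · right
      obtain ⟨c, hc⟩ := h
      have hP : (0 : ℤ) < ((p ^ k : ℕ) : ℤ) := by
        have := pow_pos hp.pos k
        exact_mod_cast this
      have hc0 : 0 ≤ c := by
        by_contra hneg
        push Not at hneg
        nlinarith
      have hc2 : c < 2 := by
        by_contra hneg
        push Not at hneg
        nlinarith
      have hc1 : c ≠ 0 := by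
        rintro rfl
        have : (b0 : ℤ) = 0 := by omega
        exact hnb (this ▸ dvd_zero _)
      have : c = 1 := by omega
      rw [this, mul_one] at hc
      omega
  calc (Rt d (p ^ k)).card ≤ _ := card_le_card hsub
    _ ≤ 2 := card_le_two

/-- the roots of the 2-part -/
def S2 (d : ℤ) (a : ℕ) : Finset ℕ :=
  (range (2 ^ (a + 1))).filter fun b : ℕ => ((2 ^ (a + 2) : ℕ) : ℤ) ∣ (b : ℤ) ^ 2 - d

theorem mem_S2 {d : ℤ} {a b : ℕ} :
    b ∈ S2 d a ↔ b < 2 ^ (a + 1) ∧ ((2 ^ (a + 2) : ℕ) : ℤ) ∣ (b : ℤ) ^ 2 - d := by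
  unfold S2
  rw [mem_filter, mem_range]

theorem S2_card (d : ℤ) (hd : IsFund d) (a : ℕ) : (S2 d a).card ≤ 2 := by
  rcases hd with ⟨h1, -, -⟩ | ⟨h4, -, hm⟩
  · rcases (S2 d a).eq_empty_or_nonempty with he | ⟨b0, hb0⟩
    · rw [he]; simp
    rw [mem_S2] at hb0
    have h4a : (4 : ℤ) ∣ ((2 ^ (a + 2) : ℕ) : ℤ) := by
      refine ⟨2 ^ a, ?_⟩
      push_cast
      ring
    have hodd : ∀ b : ℕ, ((2 ^ (a + 2) : ℕ) : ℤ) ∣ (b : ℤ) ^ 2 - d → (b : ℤ) % 2 = 1 := by
      intro b hb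
      have h5 : (4 : ℤ) ∣ (b : ℤ) ^ 2 - d := h4a.trans hb
      rcases Int.emod_two_eq_zero_or_one (b : ℤ) with h6 | h6
      · exfalso
        obtain ⟨c, hc⟩ : ∃ c : ℤ, (b : ℤ) = 2 * c := ⟨(b : ℤ) / 2, by omega⟩
        rw [hc] at h5
        obtain ⟨e, he⟩ := h5
        have : d = 4 * (c ^ 2 - e) := by linear_combination -he
        omega
      · exact h6
    have hsub : S2 d a ⊆ {b0, 2 ^ (a + 1) - b0} := by
      intro b hb
      rw [mem_S2] at hb
      rw [mem_insert, mem_singleton]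
      have ho := hodd b hb.2
      have ho0 := hodd b0 hb0.2
      obtain ⟨x, hx⟩ : ∃ x : ℤ, (b : ℤ) - b0 = 2 * x := ⟨((b : ℤ) - b0) / 2, by omega⟩
      obtain ⟨y, hy⟩ : ∃ y : ℤ, (b : ℤ) + b0 = 2 * y := ⟨((b : ℤ) + b0) / 2, by omega⟩
      have hxy : (2 : ℤ) ^ a ∣ x * y := by
        have h7 := dvd_sub hb.2 hb0.2
        have h8 : ((b : ℤ) ^ 2 - d) - ((b0 : ℤ) ^ 2 - d) = 4 * (x * y) := by
          have : ((b : ℤ) ^ 2 - d) - ((b0 : ℤ) ^ 2 - d) = ((b : ℤ) - b0) * ((b : ℤ) + b0) := by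
            ring
          rw [this, hx, hy]; ring
        rw [h8] at h7
        obtain ⟨e, he⟩ := h7
        refine ⟨e, ?_⟩
        push_cast at he
        have : (4 : ℤ) * (x * y) = 4 * (2 ^ a * e) := by rw [he]; ring
        linarith
      have hs : x + y = b := by linarith
      have hcase : (2 : ℤ) ^ a ∣ x ∨ (2 : ℤ) ^ a ∣ y := by
        rcases Int.emod_two_eq_zero_or_one x with h9 | h9
        · left
          have hyo : y % 2 = 1 := by omega
          have : IsCoprime (2 : ℤ) y := by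
            refine (Prime.coprime_iff_not_dvd Int.prime_two).2 ?_
            intro h; omega
          exact (IsCoprime.pow_left this).dvd_of_dvd_mul_right hxy
        · right
          have : IsCoprime (2 : ℤ) x := by
            refine (Prime.coprime_iff_not_dvd Int.prime_two).2 ?_
            intro h; omega
          exact (IsCoprime.pow_left this).dvd_of_dvd_mul_left hxy
      have hb0l : (b0 : ℤ) < 2 ^ (a + 1) := by exact_mod_cast hb0.1
      have hbl : (b : ℤ) < 2 ^ (a + 1) := by exact_mod_cast hb.1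
      have hpa : (2 : ℤ) ^ (a + 1) = 2 * 2 ^ a := by ring
      rw [hpa] at hb0l hbl
      rcases hcase with h | h
      · left
        have h0 : x = 0 := by
          refine Int.eq_zero_of_abs_lt_dvd h ?_
          rw [abs_lt]
          constructor <;> omega
        omega
      · right
        obtain ⟨c, hc⟩ := h
        have hP : (0 : ℤ) < 2 ^ a := by positivity
        have hc0 : 0 ≤ c := by
          by_contra hneg
          push Not at hneg
          nlinarith
        have hc2 : c < 2 := by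
          by_contra hneg
          push Not at hneg
          nlinarith
        have hc1 : c ≠ 0 := by
          rintro rfl
          omega
        have hc1' : c = 1 := by omega
        rw [hc1', mul_one] at hc
        have h10 : (b : ℤ) + b0 = 2 ^ (a + 1) := by rw [hy, hc, hpa]
        have h11 : b + b0 = 2 ^ (a + 1) := by exact_mod_cast h10
        omega
    calc (S2 d a).card ≤ _ := card_le_card hsub
      _ ≤ 2 := card_le_two
  · obtain ⟨m, rfl⟩ := h4
    rw [Int.mul_ediv_cancel_left _ (by norm_num)] at hm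
    have heven : ∀ b : ℕ, ((2 ^ (a + 2) : ℕ) : ℤ) ∣ (b : ℤ) ^ 2 - 4 * m → ∃ c : ℕ, b = 2 * c ∧
        (2 : ℤ) ^ a ∣ (c : ℤ) ^ 2 - m := by
      intro b hb
      obtain ⟨e, he⟩ := hb
      push_cast at he
      have he2 : (b : ℤ) ^ 2 = 2 * (2 * m + 2 * 2 ^ a * e) := by
        have : (b : ℤ) ^ 2 = 4 * m + 2 ^ (a + 2) * e := by linarith
        rw [this]; ring
      have h2b : (2 : ℤ) ∣ (b : ℤ) := Int.prime_two.dvd_of_dvd_pow ⟨_, he2⟩
      have h2b' : 2 ∣ b := by exact_mod_cast h2b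
      obtain ⟨c, rfl⟩ := h2b'
      refine ⟨c, rfl, e, ?_⟩
      push_cast at he
      have : (4 : ℤ) * ((c : ℤ) ^ 2 - m) = 4 * (2 ^ a * e) := by
        have : (4 : ℤ) * ((c : ℤ) ^ 2 - m) = (2 * (c : ℤ)) ^ 2 - 4 * m := by ring
        rw [this, he]; ring
      linarith
    rcases Nat.lt_or_ge a 2 with ha | ha
    · have hsub : S2 (4 * m) a ⊆ {0, 2} := by
        intro b hb
        rw [mem_S2] at hb
        obtain ⟨c, hc, -⟩ := heven b hb.2
        rw [mem_insert, mem_singleton]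
        have : a = 0 ∨ a = 1 := by omega
        rcases this with rfl | rfl
        · have := hb.1
          norm_num at this
          omega
        · have := hb.1
          norm_num at this
          omega
      calc (S2 (4 * m) a).card ≤ _ := card_le_card hsub
        _ ≤ 2 := card_le_two
    · have hemp : S2 (4 * m) a = ∅ := by
        rw [eq_empty_iff_forall_notMem]
        intro b hb
        rw [mem_S2] at hb
        obtain ⟨c, hc, hd⟩ := heven b hb.2
        have h4 : (4 : ℤ) ∣ (c : ℤ) ^ 2 - m := by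
          refine dvd_trans ?_ hd
          have : (4 : ℤ) = 2 ^ 2 := by norm_num
          rw [this]
          exact pow_dvd_pow _ ha
        obtain ⟨e, he⟩ := h4
        have hc4 : (c : ℤ) ^ 2 % 4 = 0 ∨ (c : ℤ) ^ 2 % 4 = 1 := by
          rcases Int.emod_two_eq_zero_or_one (c : ℤ) with h | h
          · left
            obtain ⟨u, hu⟩ : ∃ u : ℤ, (c : ℤ) = 2 * u := ⟨(c : ℤ) / 2, by omega⟩
            rw [hu]
            have : (2 * u) ^ 2 = 4 * u ^ 2 := by ring
            omega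
          · right
            obtain ⟨u, hu⟩ : ∃ u : ℤ, (c : ℤ) = 2 * u + 1 := ⟨(c : ℤ) / 2, by omega⟩
            rw [hu]
            have : (2 * u + 1) ^ 2 = 4 * (u ^ 2 + u) + 1 := by ring
            omega
        omega
      rw [hemp]; simp

/-- the sum over the divisors -/
noncomputable def Sc (d : ℤ) (m : ℕ) : ℝ := ∑ t ∈ m.divisors, Pool.Agent.H34.PS.chi (ker d) t

theorem ker_dvd (d : ℤ) (hd : IsFund d) : ∃ c : ℤ, (c = 1 ∨ c = 2) ∧ d = c ^ 2 * ker d ∧
    Squarefree (ker d) := by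
  unfold ker
  rcases hd with ⟨h1, h2, -⟩ | ⟨h4, h2, hm⟩
  · rw [if_pos h1]
    exact ⟨1, Or.inl rfl, by ring, h2⟩
  · have : ¬ d % 4 = 1 := by omega
    rw [if_neg this]
    refine ⟨2, Or.inr rfl, ?_, h2⟩
    have := Int.mul_ediv_cancel' h4
    linarith

theorem ker_ne_zero (d : ℤ) (hd : IsFund d) : ker d ≠ 0 := by
  obtain ⟨c, -, -, h⟩ := ker_dvd d hd
  exact h.ne_zero

theorem chi_mul' (D : ℤ) (m n : ℕ) : Pool.Agent.H34.PS.chi D (m * n) =
    Pool.Agent.H34.PS.chi D m * Pool.Agent.H34.PS.chi D n := by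
  unfold Pool.Agent.H34.PS.chi
  by_cases hm : m % 2 = 1
  · by_cases hn : n % 2 = 1
    · have hmn : (m * n) % 2 = 1 := by rw [Nat.mul_mod, hm, hn]
      rw [if_pos hmn, if_pos hm, if_pos hn]
      have : NeZero m := ⟨by rintro rfl; simp at hm⟩
      have : NeZero n := ⟨by rintro rfl; simp at hn⟩
      rw [jacobiSym.mul_right]
      push_cast
      ring
    · have hmn : ¬ (m * n) % 2 = 1 := by
        rw [Nat.mul_mod]
        have : n % 2 = 0 := by omega
        simp [this]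
      rw [if_neg hmn, if_neg hn, mul_zero]
  · have hmn : ¬ (m * n) % 2 = 1 := by
      rw [Nat.mul_mod]
      have : m % 2 = 0 := by omega
      simp [this]
    rw [if_neg hmn, if_neg hm, zero_mul]

theorem chi_one' (D : ℤ) : Pool.Agent.H34.PS.chi D 1 = 1 := by
  unfold Pool.Agent.H34.PS.chi
  simp

theorem chi_pow' (D : ℤ) (m j : ℕ) : Pool.Agent.H34.PS.chi D (m ^ j) =
    Pool.Agent.H34.PS.chi D m ^ j := by
  induction j with
  | zero => rw [pow_zero, pow_zero, chi_one']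
  | succ j ih => rw [pow_succ, pow_succ, chi_mul', ih]

theorem Sc_mul (d : ℤ) {m n : ℕ} (h : m.Coprime n) : Sc d (m * n) = Sc d m * Sc d n := by
  unfold Sc
  rw [sum_mul_sum, ← sum_product', Nat.divisors_mul, Finset.mul_def,
    sum_image h.mul_injOn_divisors]
  exact sum_congr rfl fun x _ => chi_mul' _ _ _

theorem Sc_pow (d : ℤ) {p : ℕ} (hp : p.Prime) (k : ℕ) :
    Sc d (p ^ k) = ∑ j ∈ range (k + 1), Pool.Agent.H34.PS.chi (ker d) p ^ j := by
  unfold Sc
  rw [Nat.sum_divisors_prime_pow hp]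
  exact sum_congr rfl fun j _ => chi_pow' _ _ _

theorem Rt_le_Sc_pow (d : ℤ) (hd : IsFund d) {p : ℕ} (hp : p.Prime) (h2 : p ≠ 2) {k : ℕ}
    (hk : 0 < k) : ((Rt d (p ^ k)).card : ℝ) ≤ Sc d (p ^ k) := by
  obtain ⟨c, hc, hdc, hsq⟩ := ker_dvd d hd
  have hpI : Prime (p : ℤ) := Nat.prime_iff_prime_int.1 hp
  have hodd : p % 2 = 1 := by
    rcases hp.eq_two_or_odd with h | h
    · exact absurd h h2
    · exact h
  have hpc : ¬ (p : ℤ) ∣ c := by
    intro h
    rcases hc with rfl | rfl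
    · exact hpI.not_isUnit (isUnit_of_dvd_one h)
    · have h8 : p ∣ 2 := by exact_mod_cast h
      exact h2 ((Nat.prime_dvd_prime_iff_eq hp Nat.prime_two).1 h8)
  have hpk : (p : ℤ) ∣ ((p ^ k : ℕ) : ℤ) := by
    push_cast
    exact dvd_pow_self _ hk.ne'
  have : Fact p.Prime := ⟨hp⟩
  have hchi : Pool.Agent.H34.PS.chi (ker d) p = ((legendreSym p (ker d) : ℤ) : ℝ) := by
    unfold Pool.Agent.H34.PS.chi
    rw [if_pos hodd, ← jacobiSym.legendreSym.to_jacobiSym]
  rw [Sc_pow d hp, hchi]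
  by_cases hpd : (p : ℤ) ∣ ker d
  · have h0 : legendreSym p (ker d) = 0 := by
      rw [legendreSym.eq_zero_iff, ZMod.intCast_zmod_eq_zero_iff_dvd]
      exact hpd
    have hs : ∑ j ∈ range (k + 1), ((legendreSym p (ker d) : ℤ) : ℝ) ^ j = 1 := by
      rw [h0, Finset.sum_range_succ']
      simp
    rw [hs]
    have hpdd : (p : ℤ) ∣ d := by rw [hdc]; exact hpd.mul_left _
    have hp2 : ¬ (p : ℤ) ^ 2 ∣ d := by
      intro h
      rw [hdc] at h
      have hcop : IsCoprime ((p : ℤ) ^ 2) (c ^ 2) :=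
        ((Prime.coprime_iff_not_dvd hpI).2 hpc).pow
      have h3 : (p : ℤ) ^ 2 ∣ ker d := hcop.dvd_of_dvd_mul_left h
      rw [pow_two] at h3
      exact hpI.not_isUnit (hsq _ h3)
    have hb0 : ∀ b ∈ Rt d (p ^ k), (p : ℤ) ∣ (b : ℤ) := by
      intro b hb
      rw [mem_Rt] at hb
      have h1 := hpk.trans hb.2
      have h3 : (p : ℤ) ∣ (b : ℤ) ^ 2 := by
        have := dvd_add h1 hpdd
        simpa using this
      exact hpI.dvd_of_dvd_pow h3
    have hcard : (Rt d (p ^ k)).card ≤ 1 := by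
      rw [card_le_one]
      intro b hb b' hb'
      have h1 : k = 1 := by
        by_contra hne
        have hk2 : 2 ≤ k := by omega
        apply hp2
        have h3 : (p : ℤ) ^ 2 ∣ ((p ^ k : ℕ) : ℤ) := by
          push_cast
          exact pow_dvd_pow _ hk2
        have h4 := h3.trans (mem_Rt.1 hb).2
        have h5 : (p : ℤ) ^ 2 ∣ (b : ℤ) ^ 2 := pow_dvd_pow_of_dvd (hb0 b hb) 2
        exact (dvd_sub_right h5).1 h4
      subst h1
      have hz : ∀ b ∈ Rt d (p ^ 1), b = 0 := by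
        intro b hb
        have h1 := (mem_Rt.1 hb).1
        rw [pow_one] at h1
        have h3 : p ∣ b := by exact_mod_cast hb0 b hb
        exact Nat.eq_zero_of_dvd_of_lt h3 h1
      rw [hz b hb, hz b' hb']
    exact_mod_cast hcard
  · have hne : ((ker d : ℤ) : ZMod p) ≠ 0 := by
      rw [Ne, ZMod.intCast_zmod_eq_zero_iff_dvd]
      exact hpd
    have hpdd : ¬ (p : ℤ) ∣ d := by
      intro h
      rw [hdc] at h
      rcases hpI.dvd_or_dvd h with h | h
      · exact hpc (hpI.dvd_of_dvd_pow h)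
      · exact hpd h
    rcases legendreSym.eq_one_or_neg_one p hne with h1 | h1
    · rw [h1]
      have h3 : ((Rt d (p ^ k)).card : ℝ) ≤ 2 := by
        exact_mod_cast Rt_pow_le_two d hp h2 hpdd hk
      refine h3.trans ?_
      have hk1 : (1 : ℝ) ≤ k := by exact_mod_cast hk
      simp
      linarith
    · have hemp : Rt d (p ^ k) = ∅ := by
        rw [eq_empty_iff_forall_notMem]
        intro b hb
        have h3 := hpk.trans (mem_Rt.1 hb).2
        rw [legendreSym.eq_neg_one_iff] at h1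
        apply h1
        have h4 : ((b : ZMod p)) ^ 2 = (c : ZMod p) ^ 2 * (ker d : ZMod p) := by
          have h5 := (ZMod.intCast_zmod_eq_zero_iff_dvd _ p).2 h3
          rw [hdc] at h5
          push_cast at h5
          rw [sub_eq_zero] at h5
          exact h5
        have hc0 : (c : ZMod p) ≠ 0 := by
          rw [Ne, ZMod.intCast_zmod_eq_zero_iff_dvd]
          exact hpc
        refine ⟨(b : ZMod p) * (c : ZMod p)⁻¹, ?_⟩
        have h6 : (b : ZMod p) * (c : ZMod p)⁻¹ * ((b : ZMod p) * (c : ZMod p)⁻¹) =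
            (b : ZMod p) ^ 2 * ((c : ZMod p) ^ 2)⁻¹ := by
          rw [← inv_pow]; ring
        rw [h6, h4]
        have hc2 : (c : ZMod p) ^ 2 ≠ 0 := pow_ne_zero 2 hc0
        rw [mul_comm ((c : ZMod p) ^ 2), mul_assoc, mul_inv_cancel₀ hc2, mul_one]
      rw [hemp, card_empty, Nat.cast_zero, h1]
      have : ∀ m : ℕ, 0 ≤ ∑ j ∈ range m, (((-1 : ℤ) : ℝ)) ^ j := by
        intro m
        push_cast
        rw [neg_one_geom_sum]
        split_ifs <;> norm_num
      exact this _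

theorem Rt_le_Sc (d : ℤ) (hd : IsFund d) (m : ℕ) : m % 2 = 1 → ((Rt d m).card : ℝ) ≤ Sc d m := by
  induction m using Nat.recOnPosPrimePosCoprime with
  | zero => intro h; omega
  | one =>
    intro _
    rw [Rt_one]
    unfold Sc
    simp [chi_one']
  | prime_pow p n hp hn =>
    intro h
    have h2 : p ≠ 2 := by
      rintro rfl
      have : 2 ∣ 2 ^ n := dvd_pow_self _ hn.ne'
      omega
    exact Rt_le_Sc_pow d hd hp h2 hn
  | coprime a b ha hb hab iha ihb =>
    intro h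
    have hao : a % 2 = 1 := by
      by_contra h3
      have h4 : a % 2 = 0 := by omega
      rw [Nat.mul_mod, h4] at h
      simp at h
    have hbo : b % 2 = 1 := by
      by_contra h3
      have h4 : b % 2 = 0 := by omega
      rw [Nat.mul_mod, h4] at h
      simp at h
    rw [Sc_mul d hab]
    have h5 : ((Rt d (a * b)).card : ℝ) ≤ (Rt d a).card * (Rt d b).card := by
      exact_mod_cast Rt_mul_le d hab (by omega) (by omega)
    refine h5.trans ?_
    exact mul_le_mul (iha hao) (ihb hbo) (Nat.cast_nonneg _) ((Nat.cast_nonneg _).trans (iha hao))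

theorem pf_RTB (_hJ : Pool.Agent.H34.PS.T_JM) : T_RTB := by
  intro d hd A hA
  have hA0 : A ≠ 0 := by omega
  set a := A.factorization 2 with ha
  set B := Pool.Agent.H34.PS.op A with hB
  have hAB : 2 ^ a * B = A := Nat.ordProj_mul_ordCompl_eq_self A 2
  have hBo : B % 2 = 1 := by
    have : ¬ 2 ∣ B := Nat.not_dvd_ordCompl Nat.prime_two hA0
    omega
  have hBp : 0 < B := by omega
  have hcop : (2 ^ (a + 1)).Coprime B := by
    apply Nat.Coprime.pow_left
    rw [Nat.Prime.coprime_iff_not_dvd Nat.prime_two]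
    omega
  have h2A : 2 * A = 2 ^ (a + 1) * B := by rw [← hAB]; ring
  have h4A : (4 * (A : ℤ)) = ((2 ^ (a + 2) * B : ℕ) : ℤ) := by
    have : 4 * A = 2 ^ (a + 2) * B := by rw [← hAB]; ring
    rw [← this]
    push_cast
    ring
  have hcard : Pool.Agent.H56.CF.rts A d ≤ (S2 d a).card * (Rt d B).card := by
    rw [← card_product]
    unfold Pool.Agent.H56.CF.rts
    have hP : 0 < 2 ^ (a + 1) := by positivity
    refine card_le_card_of_injOn (fun w => (w % 2 ^ (a + 1), w % B)) ?_ ?_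
    · intro w hw
      rw [mem_coe, mem_filter, h4A] at hw
      rw [mem_coe, mem_product]
      refine ⟨mem_S2.2 ⟨Nat.mod_lt _ hP, ?_⟩,
        mem_Rt.2 ⟨Nat.mod_lt _ hBp, mod_sq (dvd_mul_left B _) hw.2⟩⟩
      have h1 : ((2 ^ (a + 2) : ℕ) : ℤ) ∣ (w : ℤ) ^ 2 - d :=
        (Int.natCast_dvd_natCast.2 (dvd_mul_right _ _)).trans hw.2
      obtain ⟨e, he⟩ : ((2 ^ (a + 1) : ℕ) : ℤ) ∣ (w : ℤ) - ((w % 2 ^ (a + 1) : ℕ) : ℤ) := by
        rw [Int.natCast_mod]
        exact Int.dvd_self_sub_emod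
      have h3 : ((w % 2 ^ (a + 1) : ℕ) : ℤ) ^ 2 - d = ((w : ℤ) ^ 2 - d) -
          ((2 ^ (a + 2) : ℕ) : ℤ) * (e * w - 2 ^ a * e ^ 2) := by
        have h5 : ((w % 2 ^ (a + 1) : ℕ) : ℤ) = w - ((2 ^ (a + 1) : ℕ) : ℤ) * e := by
          rw [← he]; ring
        rw [h5]
        push_cast
        ring
      show ((2 ^ (a + 2) : ℕ) : ℤ) ∣ ((w % 2 ^ (a + 1) : ℕ) : ℤ) ^ 2 - d
      rw [h3]
      exact dvd_sub h1 (dvd_mul_right _ _)
    · intro w hw w' hw' hww
      rw [mem_coe, mem_filter, mem_range, h2A] at hw hw'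
      rw [Prod.mk.injEq] at hww
      have h1 : w ≡ w' [MOD 2 ^ (a + 1) * B] :=
        (Nat.modEq_and_modEq_iff_modEq_mul hcop).1 ⟨hww.1, hww.2⟩
      exact Nat.ModEq.eq_of_lt_of_lt h1 hw.1 hw'.1
  have h1 : (Pool.Agent.H56.CF.rts A d : ℝ) ≤ (S2 d a).card * (Rt d B).card := by
    exact_mod_cast hcard
  have h2 : ((S2 d a).card : ℝ) ≤ 2 := by exact_mod_cast S2_card d hd a
  have h3 : ((Rt d B).card : ℝ) ≤ Sc d B := Rt_le_Sc d hd B hBo
  calc (Pool.Agent.H56.CF.rts A d : ℝ) ≤ (S2 d a).card * (Rt d B).card := h1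
    _ ≤ 2 * Sc d B := mul_le_mul h2 h3 (Nat.cast_nonneg _) (by norm_num)

end Pool.Agent.H87.HH
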