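import Pool.Agent.H37.HH.Targets4
import Pool.Agent.H37.CV.Targets

/-!
# Half of all (MP_347b49_nt), row SSM: the central value as a smooth sum
-/

set_option autoImplicit false

open NumberField Complex Filter Topology MeasureTheory
open scoped ContDiff nonZeroDivisors

namespace Pool.Agent.H87.HH

open Pool.Agent.H28.RC Pool.Agent.H37.CV Pool.Agent.H33.HH

noncomputable section

private theorem one_le_nm {K : Type} [Field K] [NumberField K] {I : Ideal (𝓞 K)} (h : I ≠ ⊥) :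
    1 ≤ nm I := by
  have h1 : Ideal.absNorm I ≠ 0 := by
    rw [Ne, Ideal.absNorm_eq_zero_iff]
    exact h
  unfold nm
  exact_mod_cast Nat.one_le_iff_ne_zero.2 h1

private theorem G_bdd {G : ℝ → ℝ} (hG : IsG G) : ∃ M : ℝ, 0 ≤ M ∧ ∀ u, ‖G u‖ ≤ M := by
  obtain ⟨M, hM⟩ := (isCompact_Icc (a := (1 : ℝ)) (b := 3)).exists_bound_of_continuousOn
    hG.smooth.continuous.continuousOn
  refine ⟨max 1 M, le_trans zero_le_one (le_max_left _ _), fun u => ?_⟩
  rcases le_total u 1 with h | h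
  · rw [hG.low u h, norm_one]
    exact le_max_left _ _
  · rcases le_total u 3 with h3 | h3
    · exact (hM u ⟨h, h3⟩).trans (le_max_right _ _)
    · rw [hG.high u h3, norm_zero]
      exact le_trans zero_le_one (le_max_left _ _)

private theorem SG_diff {K : Type} [Field K] [NumberField K] {G : ℝ → ℝ} (hG : IsG G) {Y : ℝ}
    (hY : 0 < Y) (ψ : Ideal (𝓞 K) → ℂ) : Differentiable ℂ fun s => SG G Y s ψ := by
  classical
  have hfin : {m : NI K | nm m.1 ≤ 3 * Y}.Finite := by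
    have h1 := Ideal.finite_setOfPred_absNorm_le (S := 𝓞 K) ⌊3 * Y⌋₊
    refine (h1.preimage (f := fun m : NI K => m.1) Subtype.val_injective.injOn).subset ?_
    intro m hm
    exact Nat.le_floor hm
  have heq : ∀ s, SG G Y s ψ = ∑ m ∈ hfin.toFinset,
      (G (nm m.1 / Y) : ℂ) * (nm m.1 : ℂ) ^ (-s) * ψ m.1 := by
    intro s
    unfold SG
    refine tsum_eq_sum fun m hm => ?_
    have h1 : ¬ nm m.1 ≤ 3 * Y := fun h => hm (hfin.mem_toFinset.2 h)
    rw [hG.high _ ((le_div_iff₀ hY).2 (not_le.1 h1).le)]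
    simp
  have h2 : (fun s => SG G Y s ψ) = fun s => ∑ m ∈ hfin.toFinset,
      (G (nm m.1 / Y) : ℂ) * (nm m.1 : ℂ) ^ (-s) * ψ m.1 := funext heq
  rw [h2]
  refine Differentiable.fun_sum fun m _ => ?_
  have hne : (nm m.1 : ℂ) ≠ 0 := by
    rw [Complex.ofReal_ne_zero]
    have := one_le_nm m.2
    intro h0
    rw [h0] at this
    linarith
  exact ((differentiable_neg.const_cpow (Or.inl hne)).const_mul _).mul_const _

private theorem SG_lim {K : Type} [Field K] [NumberField K] (hZK : T_ZK) {G : ℝ → ℝ}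
    (hG : IsG G) {X : ℝ} (hX : 0 < X) (χ : RCC K) {s : ℂ} (hs : 1 < s.re) :
    Tendsto (fun J : ℕ => SG G (2 ^ J * X) s χ.ψ) atTop (𝓝 (Lc χ s)) := by
  obtain ⟨M, hM0, hM⟩ := G_bdd hG
  obtain ⟨E, -, hE, -⟩ := hZK K
  have hsum := (hE s hs).1
  have hg : Lc χ s = ∑' m : NI K, (nm m.1 : ℂ) ^ (-s) * χ.ψ m.1 := by
    unfold Lc
    refine tsum_congr fun m => ?_
    unfold nm
    rw [Complex.ofReal_natCast]
    ring
  rw [hg]
  unfold SG
  refine tendsto_tsum_of_dominated_convergence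
    (bound := fun m : NI K => M * ‖((nm m.1 : ℝ) : ℂ) ^ (-s)‖) (hsum.mul_left M) ?_ ?_
  · intro m
    refine tendsto_const_nhds.congr' ?_
    have h1 : Tendsto (fun J : ℕ => (2 : ℝ) ^ J * X) atTop atTop :=
      (tendsto_pow_atTop_atTop_of_one_lt one_lt_two).atTop_mul_const hX
    filter_upwards [h1.eventually_ge_atTop (nm m.1)] with J hJ
    have h2 : 0 < (2 : ℝ) ^ J * X := by positivity
    rw [hG.low _ ((div_le_one h2).2 hJ)]
    simp
  · refine Eventually.of_forall fun J m => ?_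
    have h1 : ‖χ.ψ m.1‖ ≤ 1 := by
      by_cases h : m.1 ⊔ χ.f = ⊤
      · exact (χ.norm_one _ m.2 h).le
      · rw [χ.eq_zero _ h, norm_zero]
        exact zero_le_one
    rw [norm_mul, norm_mul, Complex.norm_real]
    calc ‖G (nm m.1 / (2 ^ J * X))‖ * ‖((nm m.1 : ℝ) : ℂ) ^ (-s)‖ * ‖χ.ψ m.1‖
        ≤ ‖G (nm m.1 / (2 ^ J * X))‖ * ‖((nm m.1 : ℝ) : ℂ) ^ (-s)‖ * 1 :=
          mul_le_mul_of_nonneg_left h1 (by positivity)
      _ ≤ M * ‖((nm m.1 : ℝ) : ℂ) ^ (-s)‖ := by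
          rw [mul_one]
          exact mul_le_mul_of_nonneg_right (hM _) (norm_nonneg _)

/-- (SSM) the central value as a smooth sum. -/
theorem pf_SSM (hSGD : T_SGD) (hZK : T_ZK) : T_SSM := by
  intro K _ _ _ G hG k hk
  obtain ⟨C, hC0, hC⟩ := hSGD K G hG k (by omega)
  set r : ℝ := (2 : ℝ) ^ (4 - (k : ℝ) / 2) with hr
  have hk9 : (9 : ℝ) ≤ k := by exact_mod_cast hk
  have hr0 : 0 ≤ r := Real.rpow_nonneg (by norm_num) _
  have hr1 : r < 1 := Real.rpow_lt_one_of_one_lt_of_neg (by norm_num) (by linarith)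
  refine ⟨C * (1 - r)⁻¹, mul_nonneg hC0 (inv_nonneg.2 (by linarith)), ?_⟩
  intro χ hf Z hZ X hX
  have hN1 : 1 ≤ nm χ.f := one_le_nm χ.f_ne
  have hN0 : 0 < nm χ.f := by linarith
  have hX0 : 0 < X := by linarith
  set B : ℝ := C * nm χ.f * X ^ 3 * (X / nm χ.f) ^ (1 - (k : ℝ) / 2) with hB
  have hB0 : 0 ≤ B := by
    have : 0 ≤ (X / nm χ.f) ^ (1 - (k : ℝ) / 2) := Real.rpow_nonneg (by positivity) _
    positivity
  have hD : ∀ (j : ℕ) (s : ℂ), ‖s‖ ≤ 3 →
      ‖SG G (2 ^ (j + 1) * X) s χ.ψ - SG G (2 ^ j * X) s χ.ψ‖ ≤ B * r ^ j := by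
    intro j s hs
    have h2j : (1 : ℝ) ≤ 2 ^ j := one_le_pow₀ (by norm_num)
    have h1 := hC χ hf (2 ^ j * X) (hX.trans (le_mul_of_one_le_left hX0.le h2j)) s hs
    have h2 : 2 * (2 ^ j * X) = 2 ^ (j + 1) * X := by ring
    rw [h2] at h1
    refine h1.trans (le_of_eq ?_)
    have h3 : (2 ^ j * X / nm χ.f) = 2 ^ j * (X / nm χ.f) := by ring
    have h4 : (2 ^ j * (X / nm χ.f)) ^ (1 - (k : ℝ) / 2) =
        ((2 : ℝ) ^ j) ^ (1 - (k : ℝ) / 2) * (X / nm χ.f) ^ (1 - (k : ℝ) / 2) :=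
      Real.mul_rpow (by positivity) (by positivity)
    have h5 : r ^ j = ((2 : ℝ) ^ j) ^ 3 * ((2 : ℝ) ^ j) ^ (1 - (k : ℝ) / 2) := by
      have e1 : r ^ j = (2 : ℝ) ^ ((j : ℝ) * (4 - (k : ℝ) / 2)) := by
        rw [hr, ← Real.rpow_natCast, ← Real.rpow_mul (by norm_num)]
        congr 1
        ring
      have e2 : ((2 : ℝ) ^ j) ^ 3 = (2 : ℝ) ^ ((j : ℝ) * 3) := by
        rw [← Real.rpow_natCast, ← Real.rpow_natCast, ← Real.rpow_mul (by norm_num)]
        norm_num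
      have e3 : ((2 : ℝ) ^ j) ^ (1 - (k : ℝ) / 2) = (2 : ℝ) ^ ((j : ℝ) * (1 - (k : ℝ) / 2)) := by
        rw [← Real.rpow_natCast, ← Real.rpow_mul (by norm_num)]
      rw [e1, e2, e3, ← Real.rpow_add (by norm_num)]
      congr 1
      ring
    rw [h3, h4, h5, hB, mul_pow]
    ring
  have hsumr : Summable fun j : ℕ => B * r ^ j := (summable_geometric_of_lt_one hr0 hr1).mul_left B
  set D : ℕ → ℂ → ℂ := fun j s => SG G (2 ^ (j + 1) * X) s χ.ψ - SG G (2 ^ j * X) s χ.ψ with hDdef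
  have hball : ∀ s : ℂ, s ∈ Metric.ball (0 : ℂ) 3 → ‖s‖ ≤ 3 := fun s hs =>
    (mem_ball_zero_iff.1 hs).le
  have hDdiff : DifferentiableOn ℂ (fun s => ∑' j, D j s) (Metric.ball (0 : ℂ) 3) :=
    differentiableOn_tsum_of_summable_norm hsumr
      (fun j => ((SG_diff hG (by positivity) χ.ψ).sub
        (SG_diff hG (by positivity) χ.ψ)).differentiableOn) Metric.isOpen_ball
      fun j s hs => hD j s (hball s hs)
  set E : ℂ → ℂ := fun s => SG G X s χ.ψ + ∑' j, D j s with hE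
  have hEdiff : DifferentiableOn ℂ E (Metric.ball (0 : ℂ) 3) :=
    (SG_diff hG hX0 χ.ψ).differentiableOn.add hDdiff
  have htel : ∀ (J : ℕ) (s : ℂ), SG G (2 ^ J * X) s χ.ψ = SG G X s χ.ψ +
      ∑ j ∈ Finset.range J, D j s := by
    intro J s
    have h1 := Finset.sum_range_sub (fun j : ℕ => SG G (2 ^ j * X) s χ.ψ) J
    simp only [pow_zero, one_mul] at h1
    rw [hDdef]
    simp only
    rw [h1]
    ring
  have hlim : ∀ s ∈ Metric.ball (0 : ℂ) 3,
      Tendsto (fun J : ℕ => SG G (2 ^ J * X) s χ.ψ) atTop (𝓝 (E s)) := by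
    intro s hs
    have h1 : Summable fun j => D j s :=
      Summable.of_norm_bounded hsumr fun j => hD j s (hball s hs)
    have h2 := h1.hasSum.tendsto_sum_nat
    have h3 := h2.const_add (SG G X s χ.ψ)
    refine h3.congr fun J => ?_
    rw [htel J s]
  have hEZ : Set.EqOn E Z (Metric.ball (0 : ℂ) 3) := by
    have h2 : (2 : ℂ) ∈ Metric.ball (0 : ℂ) 3 := by
      rw [mem_ball_zero_iff]
      norm_num
    refine (hEdiff.analyticOnNhd Metric.isOpen_ball).eqOn_of_preconnected_of_eventuallyEq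
      (hZ.1.differentiableOn.analyticOnNhd Metric.isOpen_ball)
      (convex_ball (0 : ℂ) 3).isPreconnected h2 ?_
    have hopen : IsOpen {s : ℂ | 1 < s.re} := isOpen_lt continuous_const Complex.continuous_re
    filter_upwards [Metric.isOpen_ball.mem_nhds h2, hopen.mem_nhds (show (1 : ℝ) < (2 : ℂ).re by
      norm_num)] with s hs1 hs2
    rw [hZ.2 s hs2]
    exact tendsto_nhds_unique (hlim s hs1) (SG_lim hZK hG hX0 χ hs2)
  have hhalf : (1 / 2 : ℂ) ∈ Metric.ball (0 : ℂ) 3 := by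
    rw [mem_ball_zero_iff]
    norm_num
  have hl := hlim _ hhalf
  rw [hEZ hhalf] at hl
  have hb : ∀ J : ℕ, ‖SG G X (1 / 2) χ.ψ - SG G (2 ^ J * X) (1 / 2) χ.ψ‖ ≤ B * (1 - r)⁻¹ := by
    intro J
    rw [htel J, sub_add_cancel_left, norm_neg]
    calc ‖∑ j ∈ Finset.range J, D j (1 / 2)‖ ≤ ∑ j ∈ Finset.range J, ‖D j (1 / 2)‖ :=
          norm_sum_le _ _
      _ ≤ ∑ j ∈ Finset.range J, B * r ^ j :=
          Finset.sum_le_sum fun j _ => hD j _ (hball _ hhalf)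
      _ ≤ ∑' j, B * r ^ j := hsumr.sum_le_tsum _ fun j _ => by positivity
      _ = B * (1 - r)⁻¹ := by rw [tsum_mul_left, tsum_geometric_of_lt_one hr0 hr1]
  have hfinal := le_of_tendsto' ((tendsto_const_nhds.sub hl).norm) hb
  refine hfinal.trans (le_of_eq ?_)
  rw [hB]
  ring

end

end Pool.Agent.H87.HH
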